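import Pool.Agent.Lib.MP_ab3705_an.GD.Defs

set_option autoImplicit false

namespace Pool.Agent.Lib.MP_ab3705_an.Gen

open Pool.Agent.Lib.MP_ab3705_an.GD

/-- Bounded continuous real functions on the closed unit ball of `X`, with the sup metric. -/
abbrev Ball (X : Type) [NormedAddCommGroup X] : Type :=
  BoundedContinuousFunction (Metric.closedBall (0 : X) 1) ℝ

/-- `f` is the restriction to the unit ball of an equivalent norm on `X`, and `X` with that norm
(a space `Y`) has property `Q`. -/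
def Has (X : Type) [NormedAddCommGroup X] [NormedSpace ℝ X] (f : Ball X)
    (Q : (Y : Type) → [NormedAddCommGroup Y] → [NormedSpace ℝ Y] → Prop) : Prop :=
  ∃ (Y : Type) (_ : NormedAddCommGroup Y) (_ : NormedSpace ℝ Y) (e : X ≃L[ℝ] Y),
    (∀ x : Metric.closedBall (0 : X) 1, ‖e x‖ = f x) ∧ Q Y

/-- The metric space of equivalent norms on `X`. -/
def EN (X : Type) [NormedAddCommGroup X] [NormedSpace ℝ X] : Set (Ball X) :=
  {f | Has X f fun _ _ _ => True}

/-- A space as in Q1, in both codings, whose only linear isometric self-embeddings are `± id`. -/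
def Good (Y : Type) [NormedAddCommGroup Y] [NormedSpace ℝ Y] : Prop :=
  ¬ IsLp Y ∧ ¬ IsGurarii Y ∧ GdIn Pinf Y ∧ GdIn Bn Y ∧
    ∀ U : Y →ₗᵢ[ℝ] Y, (∀ y, U y = y) ∨ ∀ y, U y = -y

end Pool.Agent.Lib.MP_ab3705_an.Gen
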