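import Pool.Agent.Lib.MP_ab3705_an.Gen.Rig

set_option autoImplicit false

namespace Pool.Agent.Lib.MP_ab3705_an.Gen

open Pool.Agent.Lib.MP_ab3705_an.GD Metric Filter Topology

section
variable {X : Type} [NormedAddCommGroup X] [NormedSpace ℝ X]

/-- `P` restricts to `f` on the unit ball. -/
def Rep (P : X → ℝ) (f : Ball X) : Prop := ∀ x : closedBall (0 : X) 1, P x = f x

/-- The radial projection into the unit ball. -/
noncomputable def pr (u : X) : closedBall (0 : X) 1 :=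
  ⟨(‖u‖ + 1)⁻¹ • u, by
    rw [mem_closedBall_zero_iff, norm_smul, Real.norm_eq_abs, abs_of_pos (by positivity),
      inv_mul_le_iff₀ (by positivity)]
    linarith⟩

theorem Rep.ext {P : Seminorm ℝ X} {f : Ball X} (h : Rep P f) (u : X) :
    P u = (‖u‖ + 1) * f (pr u) := by
  rw [← h (pr u)]
  show P u = (‖u‖ + 1) * P ((‖u‖ + 1)⁻¹ • u)
  rw [map_smul_eq_mul, Real.norm_eq_abs, abs_of_pos (by positivity), ← mul_assoc,
    mul_inv_cancel₀ (by positivity), one_mul]

theorem Rep.close {P Q : Seminorm ℝ X} {f g : Ball X} (hP : Rep P f) (hQ : Rep Q g) (u : X) :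
    |P u - Q u| ≤ dist f g * ‖u‖ := by
  rcases eq_or_ne u 0 with rfl | hu
  · simp
  have hp : 0 < ‖u‖ := norm_pos_iff.2 hu
  let v : closedBall (0 : X) 1 := ⟨‖u‖⁻¹ • u, by
    rw [mem_closedBall_zero_iff, norm_smul, Real.norm_eq_abs, abs_of_pos (inv_pos.2 hp),
      inv_mul_cancel₀ hp.ne']⟩
  have h1 := BoundedContinuousFunction.dist_coe_le_dist (f := f) (g := g) v
  rw [← hP v, ← hQ v, Real.dist_eq] at h1
  have h2 : |P (‖u‖⁻¹ • u) - Q (‖u‖⁻¹ • u)| ≤ dist f g := h1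
  rw [map_smul_eq_mul, map_smul_eq_mul, Real.norm_eq_abs, abs_of_pos (inv_pos.2 hp), ← mul_sub,
    abs_mul, abs_of_pos (inv_pos.2 hp), inv_mul_le_iff₀ hp] at h2
  linarith

theorem exists_ball (P : Seminorm ℝ X) (C : ℝ) (hC : 0 ≤ C) (h : ∀ u, P u ≤ C * ‖u‖) :
    ∃ f : Ball X, Rep P f := by
  have hl : LipschitzWith ⟨C, hC⟩ P := LipschitzWith.of_dist_le_mul fun u v => by
    rw [Real.dist_eq, dist_eq_norm]
    exact (abs_sub_map_le_sub P u v).trans (h _)
  refine ⟨BoundedContinuousFunction.ofNormedAddCommGroup (fun x => P x)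
    (hl.continuous.comp continuous_subtype_val) C fun x => ?_, fun x => rfl⟩
  rw [Real.norm_eq_abs, abs_of_nonneg (apply_nonneg _ _)]
  have h1 := mem_closedBall_zero_iff.1 x.2
  have h2 := h x
  nlinarith

theorem exists_space (P : Seminorm ℝ X) (C : ℝ) (h1 : ∀ u, P u ≤ C * ‖u‖)
    (h2 : ∀ u, ‖u‖ ≤ C * P u) :
    ∃ (Y : Type) (_ : NormedAddCommGroup Y) (_ : NormedSpace ℝ Y) (e : X ≃L[ℝ] Y),
      ∀ x, ‖e x‖ = P x := by
  let _ : AddCommGroup (Syn X) := inferInstanceAs (AddCommGroup X)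
  let _ : Module ℝ (Syn X) := inferInstanceAs (Module ℝ X)
  let Q : AddGroupNorm (Syn X) :=
    { toFun := fun u => P u
      map_zero' := map_zero P
      add_le' := fun u v => map_add_le_add P u v
      neg' := fun u => map_neg_eq_map P u
      eq_zero_of_map_eq_zero' := fun u hu => by
        have h4 := h2 u
        have h5 : P u = 0 := hu
        rw [h5, mul_zero] at h4
        exact norm_le_zero_iff.1 h4 }
  let _ : NormedAddCommGroup (Syn X) := Q.toNormedAddCommGroup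
  let _ : NormedSpace ℝ (Syn X) :=
    { norm_smul_le := fun r u => (map_smul_eq_mul P r u).le }
  let e0 : X ≃ₗ[ℝ] Syn X := LinearEquiv.refl ℝ X
  let e : X ≃L[ℝ] Syn X := e0.toContinuousLinearEquivOfBounds C C (fun u => h1 u) (fun u => h2 u)
  exact ⟨Syn X, inferInstance, inferInstance, e, fun _ => rfl⟩

/-- The pulled back norm. -/
noncomputable def pb {Y : Type} [NormedAddCommGroup Y] [NormedSpace ℝ Y] (e : X ≃L[ℝ] Y) :
    Seminorm ℝ X := (normSeminorm ℝ Y).comp (e : X →ₗ[ℝ] Y)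

theorem pb_apply {Y : Type} [NormedAddCommGroup Y] [NormedSpace ℝ Y] (e : X ≃L[ℝ] Y) (u : X) :
    pb e u = ‖e u‖ := rfl

theorem pb_bd {Y : Type} [NormedAddCommGroup Y] [NormedSpace ℝ Y] (e : X ≃L[ℝ] Y) :
    ∃ C : ℝ, 1 ≤ C ∧ (∀ u, ‖e u‖ ≤ C * ‖u‖) ∧ ∀ u, ‖u‖ ≤ C * ‖e u‖ := by
  let A : ℝ := ‖(e : X →L[ℝ] Y)‖
  let B : ℝ := ‖(e.symm : Y →L[ℝ] X)‖
  have hA : ∀ x, ‖e x‖ ≤ A * ‖x‖ := fun x => (e : X →L[ℝ] Y).le_opNorm x
  have hB : ∀ x, ‖x‖ ≤ B * ‖e x‖ := fun x => by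
    simpa using (e.symm : Y →L[ℝ] X).le_opNorm (e x)
  have hA0 : 0 ≤ A := norm_nonneg _
  have hB0 : 0 ≤ B := norm_nonneg _
  refine ⟨A + B + 1, by linarith, fun u => (hA u).trans ?_, fun u => (hB u).trans ?_⟩
  · exact mul_le_mul_of_nonneg_right (by linarith) (norm_nonneg _)
  · exact mul_le_mul_of_nonneg_right (by linarith) (norm_nonneg _)

theorem mem_EN (P : Seminorm ℝ X) (C : ℝ) (h1 : ∀ u, P u ≤ C * ‖u‖) (h2 : ∀ u, ‖u‖ ≤ C * P u)
    (f : Ball X) (hf : Rep P f) : f ∈ EN X := by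
  obtain ⟨Y, _, _, e, he⟩ := exists_space P C h1 h2
  exact ⟨Y, _, _, e, fun x => (he x).trans (hf x), trivial⟩

/-- Restrictions of seminorms. -/
def SN (X : Type) [NormedAddCommGroup X] [NormedSpace ℝ X] : Set (Ball X) :=
  {f | ∃ P : Seminorm ℝ X, Rep P f}

theorem closed_SN : IsClosed (SN X) := by
  have hc : ∀ u : X, Continuous fun f : Ball X => (‖u‖ + 1) * f (pr u) := fun u =>
    continuous_const.mul (continuous_eval_const (pr u))
  have key : SN X = (⋂ u : X, ⋂ v : X, {f : Ball X | (‖u + v‖ + 1) * f (pr (u + v)) ≤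
        (‖u‖ + 1) * f (pr u) + (‖v‖ + 1) * f (pr v)}) ∩
      ((⋂ r : ℝ, ⋂ u : X, {f : Ball X | (‖r • u‖ + 1) * f (pr (r • u)) =
        ‖r‖ * ((‖u‖ + 1) * f (pr u))}) ∩
      ⋂ x : closedBall (0 : X) 1, {f : Ball X | (‖(x : X)‖ + 1) * f (pr x) = f x}) := by
    ext f
    simp only [Set.mem_inter_iff, Set.mem_iInter, Set.mem_setOf_eq]
    constructor
    · rintro ⟨P, hP⟩
      refine ⟨fun u v => ?_, fun r u => ?_, fun x => ?_⟩
      · rw [← hP.ext, ← hP.ext, ← hP.ext]; exact map_add_le_add P u v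
      · rw [← hP.ext, ← hP.ext]; exact map_smul_eq_mul P r u
      · rw [← hP.ext]; exact hP x
    · rintro ⟨h1, h2, h3⟩
      exact ⟨Seminorm.of (fun u => (‖u‖ + 1) * f (pr u)) h1 h2, h3⟩
  rw [key]
  refine (isClosed_iInter fun u => isClosed_iInter fun v =>
    isClosed_le (hc _) ((hc _).add (hc _))).inter ((isClosed_iInter fun r =>
      isClosed_iInter fun u => isClosed_eq (hc _) (continuous_const.mul (hc _))).inter
      (isClosed_iInter fun x => isClosed_eq (hc _) (continuous_eval_const x)))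

theorem baire : BaireSpace (EN X) := by
  have hsub : EN X ⊆ SN X := by
    rintro f ⟨Y, _, _, e, he, -⟩
    exact ⟨pb e, he⟩
  have : CompleteSpace (SN X) := closed_SN.completeSpace_coe
  have hopen : IsOpen ((Subtype.val : SN X → Ball X) ⁻¹' EN X) := by
    rw [Metric.isOpen_iff]
    rintro ⟨f, hf⟩ ⟨Y, _, _, e, he, -⟩
    obtain ⟨C, hC, h1, h2⟩ := pb_bd e
    refine ⟨1 / (2 * C), by positivity, ?_⟩
    rintro ⟨g, Q, hQ⟩ hg
    have hd : dist g f < 1 / (2 * C) := hg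
    rw [lt_div_iff₀ (by positivity)] at hd
    have hd0 : 0 ≤ dist g f := dist_nonneg
    refine mem_EN Q (2 * C) (fun u => ?_) (fun u => ?_) g hQ
    · have h3 := (abs_le.1 (hQ.close (Q := pb e) he u)).2
      rw [pb_apply] at h3
      have h4 : dist g f ≤ C := by nlinarith
      have h5 := mul_le_mul_of_nonneg_right h4 (norm_nonneg u)
      linarith [h1 u]
    · have h3 := (abs_le.1 (hQ.close (Q := pb e) he u)).1
      rw [pb_apply] at h3
      have h4 := mul_le_mul_of_nonneg_left h3 (show 0 ≤ 2 * C by linarith)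
      have h5 := mul_le_mul_of_nonneg_right hd.le (norm_nonneg u)
      nlinarith [h2 u]
  exact (Topology.IsOpenEmbedding.inclusion hsub hopen).baireSpace

/-- A robust property that can be reached from every equivalent norm is generic. -/
theorem engine (A : Seminorm ℝ X → Prop)
    (H : ∀ (Y : Type) [NormedAddCommGroup Y] [NormedSpace ℝ Y] (e : X ≃L[ℝ] Y) (h : ℝ), 0 < h →
      ∃ (N : Seminorm ℝ X) (g : ℝ), 0 < g ∧ (∀ u, N u ≤ ‖e u‖) ∧ (∀ u, ‖e u‖ ≤ (1 + h) * N u) ∧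
        ∀ P : Seminorm ℝ X, (∀ u, P u ≤ N u) → (∀ u, N u ≤ (1 + g) * P u) → A P) :
    ∀ᶠ f : EN X in residual (EN X), ∀ P : Seminorm ℝ X, Rep P f.1 → A P := by
  refine mem_of_superset (residual_of_dense_open isOpen_interior ?_) interior_subset
  rw [Metric.dense_iff]
  rintro ⟨f, hf⟩ r hr
  obtain ⟨Y, _, _, e, he, -⟩ := id hf
  obtain ⟨C, hC, h1, h2⟩ := pb_bd e
  obtain ⟨h, hh⟩ : ∃ h : ℝ, h = min 1 (r / (4 * C)) := ⟨_, rfl⟩
  have hh0 : 0 < h := by rw [hh]; positivity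
  have hh1 : h ≤ 1 := by rw [hh]; exact min_le_left _ _
  have hh2 : h * (4 * C) ≤ r := by
    rw [← le_div_iff₀ (by positivity), hh]; exact min_le_right _ _
  obtain ⟨N, g0, hg0, hN1, hN2, hA⟩ := H Y e h hh0
  obtain ⟨g, hg⟩ : ∃ g : ℝ, g = min g0 h := ⟨_, rfl⟩
  have hgp : 0 < g := by rw [hg]; positivity
  have hg1 : g ≤ g0 := by rw [hg]; exact min_le_left _ _
  have hg2 : g ≤ h := by rw [hg]; exact min_le_right _ _
  have hN0 : ∀ u, 0 ≤ N u := fun u => apply_nonneg _ _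
  have hnN : ∀ u, ‖u‖ ≤ 2 * C * N u := fun u => by
    have h3 := mul_le_mul_of_nonneg_left (hN2 u) (show 0 ≤ C by linarith)
    have h4 := mul_le_mul_of_nonneg_right hh1 (mul_nonneg (show 0 ≤ C by linarith) (hN0 u))
    nlinarith [h2 u]
  let l : NNReal := ⟨1 - g / 3, by linarith⟩
  have hl : ∀ u, (l • N) u = (1 - g / 3) * N u := fun u => rfl
  have hb1 : ∀ u, (l • N) u ≤ 4 * C * ‖u‖ := fun u => by
    rw [hl]
    have h3 := mul_nonneg (show 0 ≤ C by linarith) (norm_nonneg u)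
    nlinarith [hN0 u, hN1 u, h1 u]
  have hb2 : ∀ u, ‖u‖ ≤ 4 * C * (l • N) u := fun u => by
    rw [hl]
    have h3 := mul_nonneg (show 0 ≤ C by linarith) (hN0 u)
    nlinarith [hnN u]
  obtain ⟨f', hf'⟩ := exists_ball (l • N) (4 * C) (by linarith) hb1
  refine ⟨⟨f', mem_EN _ _ hb1 hb2 f' hf'⟩, ?_, ?_⟩
  · show dist f' f < r
    refine lt_of_le_of_lt ((BoundedContinuousFunction.dist_le (C := 2 * h * C)
      (by positivity)).2 fun x => ?_) (by nlinarith)
    rw [← hf' x, ← he x, hl, Real.dist_eq, abs_le]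
    have h3 := mem_closedBall_zero_iff.1 x.2
    have h4 : ‖e x‖ ≤ C := by nlinarith [h1 x]
    have h5 : N x ≤ C := (hN1 x).trans h4
    have h6 := mul_le_mul_of_nonneg_left h5 hh0.le
    have h7 := mul_le_mul_of_nonneg_right hg2 (hN0 x)
    have h8 := mul_nonneg hgp.le (hN0 x)
    have h9 := mul_nonneg hh0.le (hN0 x)
    constructor <;> nlinarith [hN1 x, hN2 x]
  · rw [mem_interior_iff_mem_nhds, Metric.mem_nhds_iff]
    refine ⟨g / (24 * C), by positivity, ?_⟩
    rintro ⟨f'', hf''⟩ hd P hP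
    have hd1 : dist f'' f' < g / (24 * C) := hd
    rw [lt_div_iff₀ (by positivity)] at hd1
    have hcl : ∀ u, |P u - (1 - g / 3) * N u| ≤ g / 12 * N u := fun u => by
      have h3 := hP.close hf' u
      rw [hl] at h3
      have h4 := mul_le_mul_of_nonneg_left (hnN u) (dist_nonneg (x := f'') (y := f'))
      have h5 := mul_le_mul_of_nonneg_right hd1.le (hN0 u)
      nlinarith
    refine hA P (fun u => ?_) (fun u => ?_)
    · have h3 := (abs_le.1 (hcl u)).2
      nlinarith [mul_nonneg hgp.le (hN0 u)]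
    · have h3 := (abs_le.1 (hcl u)).1
      have h4 := mul_le_mul_of_nonneg_right hg1 (apply_nonneg P u)
      have h5 : (1 - 5 * g / 12) * N u ≤ P u := by linarith
      have h6 := mul_le_mul_of_nonneg_left h5 (show 0 ≤ 1 + g by linarith)
      have h7 : 1 ≤ (1 + g) * (1 - 5 * g / 12) := by nlinarith
      have h8 := mul_le_mul_of_nonneg_right h7 (hN0 u)
      nlinarith

end

end Pool.Agent.Lib.MP_ab3705_an.Gen
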