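import Pool.Agent.Lib.MP_ab3705_an.Gen.Eng

set_option autoImplicit false

namespace Pool.Agent.Lib.MP_ab3705_an.Gen

open Pool.Agent.Lib.MP_ab3705_an.GD Metric Filter Topology

section
variable {X : Type} [NormedAddCommGroup X] [NormedSpace ℝ X]
variable {Y : Type} [NormedAddCommGroup Y] [NormedSpace ℝ Y]

/-- Trapping of one point, measured in `P`. -/
def AlgAt (P : X → ℝ) (x : X) (ε : ℝ) : Prop :=
  ∃ (k : ℕ) (y : Fin k → X) (d : ℝ) (K : Set X), 0 < d ∧ IsCompact K ∧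
    ∀ (x' : X) (y' : Fin k → X), Close P d x y x' y' → ∃ s ∈ K, P (x' - s) < ε

theorem AlgAt.pull (e : X ≃L[ℝ] Y) {P : X → ℝ} {Q : Y → ℝ} (h : ∀ u, Q (e u) = P u) {x : X}
    {ε : ℝ} (H : AlgAt Q (e x) ε) : AlgAt P x ε := by
  obtain ⟨k, y, d, K, hd, hK, H⟩ := H
  refine ⟨k, fun i => e.symm (y i), d, e.symm '' K, hd, hK.image e.symm.continuous,
    fun x' y' hc => ?_⟩
  obtain ⟨s, hs, hlt⟩ := H (e x') (fun i => e (y' i)) fun c a => by
    have h1 := hc c a
    rw [← h, ← h] at h1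
    simpa only [map_add, map_sum, map_smul, ContinuousLinearEquiv.apply_symm_apply] using h1
  refine ⟨e.symm s, ⟨s, hs, rfl⟩, ?_⟩
  rw [← h, map_sub, ContinuousLinearEquiv.apply_symm_apply]
  exact hlt

theorem alg_gen (hX : ¬ FiniteDimensional ℝ X) (hL : ¬ HasLinf X) (x : X) (ε : ℝ) (hε : 0 < ε) :
    ∀ᶠ f : EN X in residual (EN X), ∀ P : Seminorm ℝ X, Rep P f.1 → AlgAt P x ε := by
  refine engine (fun P => AlgAt P x ε) fun Y _ _ e h hh => ?_
  have hY : ¬ FiniteDimensional ℝ Y := fun _ => hX e.symm.toLinearEquiv.finiteDimensional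
  have hLY : ¬ HasLinf Y := fun h => hL (h.of_equiv e.symm)
  have h0 : 0 < min h (1 / 4) := lt_min hh (by norm_num)
  obtain ⟨q, ⟨hq0, -, hq1, hq2⟩, -, -, k, y, K, hK, H⟩ := step hY hLY (min h (1 / 4))
    (min_le_right _ _) (normSeminorm ℝ Y, min h (1 / 4))
    ⟨h0, le_rfl, fun u => le_rfl, fun u => le_rfl⟩ (e x) ε hε
  refine ⟨q.1.comp (e : X →ₗ[ℝ] Y), q.2, hq0, fun u => hq1 _, fun u => ?_, fun P hP1 hP2 => ?_⟩
  · show ‖e u‖ ≤ (1 + h) * q.1 (e u)
    have h1 := hq2 (e u)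
    have h2 := mul_le_mul_of_nonneg_right (min_le_left h (1 / 4)) (apply_nonneg q.1 (e u))
    nlinarith [mul_nonneg hq0.le (norm_nonneg (e u))]
  · let Q : Seminorm ℝ Y := P.comp (e.symm : Y →ₗ[ℝ] X)
    have hQ : ∀ v, Q v = P (e.symm v) := fun v => rfl
    have hQ1 : ∀ v, Q v ≤ q.1 v := fun v => by
      have h1 : P (e.symm v) ≤ q.1 (e (e.symm v)) := hP1 (e.symm v)
      rwa [ContinuousLinearEquiv.apply_symm_apply] at h1
    have hQ2 : ∀ v, q.1 v ≤ (1 + q.2) * Q v := fun v => by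
      have h1 : q.1 (e (e.symm v)) ≤ (1 + q.2) * P (e.symm v) := hP2 (e.symm v)
      rwa [ContinuousLinearEquiv.apply_symm_apply] at h1
    refine AlgAt.pull e (Q := Q) (fun u => by rw [hQ, ContinuousLinearEquiv.symm_apply_apply])
      ⟨k, y, q.2, K, hq0, hK, fun x' y' hc => ?_⟩
    obtain ⟨s, hs, hlt⟩ := H Q hQ1 hQ2 x' y' hc
    exact ⟨s, hs, ((hQ1 _).trans (hq1 _)).trans_lt hlt⟩

theorem rig_gen (x : X) (hx : x ≠ 0) (ε : ℝ) (hε : 0 < ε) :
    ∀ᶠ f : EN X in residual (EN X), ∀ P : Seminorm ℝ X, Rep P f.1 → RigAt P x ε ∧ Cor P := by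
  refine engine (fun P => RigAt P x ε ∧ Cor P) fun Y _ _ e h hh => ?_
  refine rig (pb e) x ?_ h hh ε hε
  rw [pb_apply, norm_pos_iff]
  exact fun h => hx (e.injective (h.trans (map_zero e).symm))

theorem alg_dense (D : ℕ → Y) (hD : DenseRange D)
    (H : ∀ n m : ℕ, AlgAt (fun u : Y => ‖u‖) (D n) (1 / ((m : ℝ) + 1))) : Alg Y := by
  intro x ε hε
  obtain ⟨i, hi⟩ := hD.exists_dist_lt x (show 0 < ε / 8 by linarith)
  obtain ⟨j, hj⟩ := exists_nat_one_div_lt (show 0 < ε / 2 by linarith)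
  obtain ⟨k, y, d, K, hd, hK, H⟩ := H i j
  refine ⟨k + 1, Fin.cons (D i) y, min d (ε / 16), K, lt_min hd (by linarith), hK,
    fun x' y' hc => ?_⟩
  obtain ⟨t, ht, hlt⟩ := H (y' 0) (fun l => y' l.succ) (by
    intro c a
    have h1 := hc 0 (Fin.cons c a)
    simp only [Fin.sum_univ_succ, Fin.cons_zero, Fin.cons_succ, zero_smul, zero_add,
      abs_zero] at h1
    exact h1.trans (mul_le_mul_of_nonneg_right (min_le_left _ _) (by positivity)))
  refine ⟨t, ht, ?_⟩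
  have h1 := hc 1 (Fin.cons (-1) 0)
  simp only [Fin.sum_univ_succ, Fin.cons_zero, Fin.cons_succ, Pi.zero_apply, zero_smul,
    Finset.sum_const_zero, add_zero, one_smul, neg_smul, abs_zero, abs_neg, abs_one,
    ← sub_eq_add_neg] at h1
  have h2 := (abs_le.1 h1).1
  have h3 : min d (ε / 16) ≤ ε / 16 := min_le_right _ _
  rw [dist_eq_norm] at hi
  have h8 : ‖x' - t‖ ≤ ‖x' - y' 0‖ + ‖y' 0 - t‖ := norm_sub_le_norm_sub_add_norm_sub _ _ _
  have h9 : ‖y' 0 - t‖ < 1 / ((j : ℝ) + 1) := hlt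
  linarith

theorem surj [CompleteSpace Y] (hA : Alg Y) (U : Y →ₗᵢ[ℝ] Y) : Function.Surjective U := by
  intro x
  have hcl : IsClosed (Set.range U) := U.isometry.isClosedEmbedding.isClosed_range
  refine hcl.closure_subset (Metric.mem_closure_iff.2 fun ε hε => ?_)
  obtain ⟨k, z, d, K, hd, hK, H⟩ := hA x (ε / 4) (by linarith)
  obtain ⟨t, ht, hc⟩ := Metric.totallyBounded_iff.1 hK.totallyBounded (ε / 4) (by linarith)
  have hn : ∀ n : ℕ, ∃ w : t, ‖(U ^ n) x - w‖ < ε / 2 := by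
    intro n
    obtain ⟨s, hs, hlt⟩ := H ((U ^ n) x) (fun i => (U ^ n) (z i)) (by
      intro c a
      have e1 : c • (U ^ n) x + ∑ i, a i • (U ^ n) (z i) = (U ^ n) (c • x + ∑ i, a i • z i) := by
        simp only [map_add, map_sum, map_smul]
      simp only [e1, LinearIsometry.norm_map, sub_self, abs_zero]
      positivity)
    obtain ⟨w, hw, hsw⟩ := Set.mem_iUnion₂.1 (hc hs)
    rw [Metric.mem_ball, dist_eq_norm] at hsw
    have := norm_sub_le_norm_sub_add_norm_sub ((U ^ n) x) s w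
    exact ⟨⟨w, hw⟩, by show ‖(U ^ n) x - w‖ < ε / 2; linarith⟩
  choose F hF using hn
  have : Finite t := ht.to_subtype
  have key : ∀ a b : ℕ, a < b → F a = F b → ∃ y ∈ Set.range U, dist x y < ε := by
    intro a b hab hFe
    obtain ⟨c, rfl⟩ := Nat.exists_eq_add_of_lt hab
    refine ⟨U ((U ^ c) x), ⟨_, rfl⟩, ?_⟩
    have e1 : (U ^ (a + c + 1)) x = (U ^ a) (U ((U ^ c) x)) := by
      rw [add_assoc, pow_add, pow_succ']; rfl
    have h1 := hF a
    have h2 := hF (a + c + 1)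
    rw [← hFe, e1, norm_sub_rev] at h2
    have h3 := norm_sub_le_norm_sub_add_norm_sub ((U ^ a) x) (F a) ((U ^ a) (U ((U ^ c) x)))
    rw [← map_sub, LinearIsometry.norm_map] at h3
    rw [dist_eq_norm]
    linarith
  obtain ⟨a, b, hab, hFe⟩ := Finite.exists_ne_map_eq_of_infinite F
  rcases lt_or_gt_of_ne hab with h | h
  · exact key a b h hFe
  · exact key b a h hFe.symm

theorem rigid (e : X ≃L[ℝ] Y) (D : ℕ → X) (hD : DenseRange D)
    (H : ∀ n m : ℕ, D n ≠ 0 → RigAt (pb e) (D n) (1 / ((m : ℝ) + 1))) (U : Y ≃ₗᵢ[ℝ] Y) :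
    (∀ y, U y = y) ∨ ∀ y, U y = -y := by
  let V : X ≃ₗ[ℝ] X := (e.toLinearEquiv.trans U.toLinearEquiv).trans e.symm.toLinearEquiv
  have hV : ∀ u, e (V u) = U (e u) := fun u => e.apply_symm_apply _
  have h1 : ∀ n, U (e (D n)) = e (D n) ∨ U (e (D n)) = -e (D n) := by
    intro n
    rcases eq_or_ne (D n) 0 with h0 | h0
    · left; rw [h0]; simp
    by_contra hc
    push Not at hc
    have p1 : 0 < ‖U (e (D n)) - e (D n)‖ := norm_pos_iff.2 (sub_ne_zero.2 hc.1)
    have p2 : 0 < ‖U (e (D n)) + e (D n)‖ :=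
      norm_pos_iff.2 fun h => hc.2 (eq_neg_of_add_eq_zero_left h)
    obtain ⟨m, hm⟩ := exists_nat_one_div_lt (lt_min p1 p2)
    rcases H n m h0 V (fun u => by rw [pb_apply, pb_apply, hV, U.norm_map]) with h | h
    · rw [pb_apply, map_sub, hV] at h
      linarith [min_le_left ‖U (e (D n)) - e (D n)‖ ‖U (e (D n)) + e (D n)‖]
    · rw [pb_apply, map_add, hV] at h
      linarith [min_le_right ‖U (e (D n)) - e (D n)‖ ‖U (e (D n)) + e (D n)‖]
  have hD' : DenseRange (e ∘ D) := e.surjective.denseRange.comp hD e.continuous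
  have h2 : ∀ y, U y = y ∨ U y = -y := fun y =>
    hD'.induction_on (p := fun y => U y = y ∨ U y = -y) y
      ((isClosed_eq U.continuous continuous_id).union (isClosed_eq U.continuous continuous_neg)) h1
  by_cases h : ∀ y, U y = y
  · exact Or.inl h
  right
  push Not at h
  obtain ⟨a, ha⟩ := h
  have ha2 := (h2 a).resolve_left ha
  intro b
  rcases h2 b with hb | hb
  · rcases h2 (a + b) with h3 | h3
    · rw [map_add, hb] at h3
      exact absurd (add_right_cancel h3) ha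
    · rw [map_add, ha2, neg_add] at h3
      exact add_left_cancel h3
  · exact hb

theorem notGur (e : X ≃L[ℝ] Y) (H : Cor (pb e)) : ¬ IsGurarii Y := by
  intro hG
  obtain ⟨w, η, hη, hw, H⟩ := H
  rw [pb_apply] at hw
  obtain ⟨c, hc⟩ : ∃ c : ℝ, c = ‖e w‖ := ⟨_, rfl⟩
  rw [← hc] at hw
  let E : Submodule ℝ (ℝ × ℝ) := LinearMap.ker (LinearMap.snd ℝ ℝ ℝ)
  let T : E →ₗᵢ[ℝ] Y :=
    { toLinearMap := (LinearMap.toSpanSingleton ℝ Y (c⁻¹ • e w)) ∘ₗ
        (LinearMap.fst ℝ ℝ ℝ) ∘ₗ E.subtype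
      norm_map' := fun x => by
        have h2 : x.1.2 = 0 := x.2
        show ‖x.1.1 • c⁻¹ • e w‖ = ‖x.1‖
        rw [norm_smul, norm_smul, ← hc, Real.norm_eq_abs c⁻¹, abs_of_pos (inv_pos.2 hw),
          inv_mul_cancel₀ hw.ne', mul_one, Prod.norm_def, h2, norm_zero,
          max_eq_left (norm_nonneg _)] }
  obtain ⟨S, hS1, hS2⟩ := hG (ℝ × ℝ) E T (min η (1 / 2)) (lt_min hη (by norm_num))
  have hw1 : S (c, 0) = e w := by
    have h1 := hS1 ⟨(c, 0), rfl⟩
    have h2 : T ⟨(c, 0), rfl⟩ = c • c⁻¹ • e w := rfl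
    rw [h2, smul_smul, mul_inv_cancel₀ hw.ne', one_smul] at h1
    exact h1
  have hm1 : min η (1 / 2) ≤ η := min_le_left _ _
  have hm2 : min η (1 / 2) ≤ 1 / 2 := min_le_right _ _
  have n1 : ‖((c, 0) + (0, c) : ℝ × ℝ)‖ = c := by
    simp [Prod.norm_def, abs_of_pos hw]
  have n2 : ‖((c, 0) - (0, c) : ℝ × ℝ)‖ = c := by
    simp [Prod.norm_def, abs_of_pos hw]
  obtain ⟨t, ht⟩ := H (e.symm (S (0, c))) (by
      rw [pb_apply, pb_apply, map_add, ContinuousLinearEquiv.apply_symm_apply, ← hc, ← hw1,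
        ← map_add]
      have h1 := (hS2 ((c, 0) + (0, c))).2
      rw [n1] at h1
      nlinarith) (by
      rw [pb_apply, pb_apply, map_sub, ContinuousLinearEquiv.apply_symm_apply, ← hc, ← hw1,
        ← map_sub]
      have h1 := (hS2 ((c, 0) - (0, c))).2
      rw [n2] at h1
      nlinarith)
  rw [pb_apply, pb_apply, map_sub, map_smul, ContinuousLinearEquiv.apply_symm_apply, ← hc, ← hw1,
    ← map_smul, ← map_sub] at ht
  have h1 := (hS2 ((0, c) - t • (c, 0))).1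
  have h2 : c ≤ ‖((0, c) - t • (c, 0) : ℝ × ℝ)‖ := by
    have := norm_snd_le ((0, c) - t • (c, 0) : ℝ × ℝ)
    simpa [abs_of_pos hw] using this
  nlinarith

theorem equiv_facts [CompleteSpace X] [TopologicalSpace.SeparableSpace X]
    (hX : ¬ FiniteDimensional ℝ X) (e : X ≃L[ℝ] Y) :
    CompleteSpace Y ∧ TopologicalSpace.SeparableSpace Y ∧ ¬ FiniteDimensional ℝ Y := by
  refine ⟨?_, e.surjective.denseRange.separableSpace e.continuous, fun h => hX ?_⟩
  · exact (completeSpace_congr (e := e.toLinearEquiv.toEquiv) e.isUniformEmbedding).1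
      inferInstance
  · exact e.symm.toLinearEquiv.finiteDimensional

/-- Finite cotype: the generic equivalent norm is good. -/
theorem generic [CompleteSpace X] [TopologicalSpace.SeparableSpace X]
    (hX : ¬ FiniteDimensional ℝ X) (hL : ¬ HasLinf X) :
    ∀ᶠ f : EN X in residual (EN X), Has X f.1 Good := by
  let D := TopologicalSpace.denseSeq X
  have hD : DenseRange D := TopologicalSpace.denseRange_denseSeq X
  have h1 : ∀ᶠ f : EN X in residual (EN X), ∀ n m : ℕ, ∀ P : Seminorm ℝ X, Rep P f.1 →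
      AlgAt P (D n) (1 / ((m : ℝ) + 1)) :=
    eventually_countable_forall.2 fun n => eventually_countable_forall.2 fun m =>
      alg_gen hX hL _ _ (by positivity)
  have h2 : ∀ᶠ f : EN X in residual (EN X), ∀ n m : ℕ, D n ≠ 0 → ∀ P : Seminorm ℝ X,
      Rep P f.1 → RigAt P (D n) (1 / ((m : ℝ) + 1)) :=
    eventually_countable_forall.2 fun n => eventually_countable_forall.2 fun m => by
      rcases eq_or_ne (D n) 0 with h0 | h0
      · exact .of_forall fun _ h => absurd h0 h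
      · exact (rig_gen (D n) h0 _ (by positivity)).mono fun f h _ P hP => (h P hP).1
  filter_upwards [h1, h2] with f hf1 hf2
  obtain ⟨Y, _, _, e, he, -⟩ := f.2
  obtain ⟨_, _, h3⟩ := equiv_facts hX e
  have hA : Alg Y := alg_dense (e ∘ D) (e.surjective.denseRange.comp hD e.continuous)
    fun n m => AlgAt.pull e.symm (Q := pb e)
      (fun u => by rw [pb_apply, ContinuousLinearEquiv.apply_symm_apply])
      (by simpa using hf1 n m (pb e) he)
  have hP := crit Y hA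
  refine ⟨Y, _, _, e, he, fun h => lp Y h hA, fun h => hL (h.hasLinf.of_equiv e.symm),
    hP.mono fun _ h => h.1, hP.mono fun _ h => h.1.1, fun U => ?_⟩
  exact rigid e D hD (fun n m h0 => hf2 n m h0 (pb e) he)
    (LinearIsometryEquiv.ofSurjective U (surj hA U))

/-- Infinite cotype: the norms with a G-delta class form a meagre set. -/
theorem meagre [CompleteSpace X] [TopologicalSpace.SeparableSpace X]
    (hX : ¬ FiniteDimensional ℝ X) (hL : HasLinf X) :
    IsMeagre {f : EN X | Has X f.1 fun Y _ _ => GdIn Pinf Y ∨ GdIn Bn Y} := by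
  have : Nontrivial X := by
    by_contra h
    rw [not_nontrivial_iff_subsingleton] at h
    exact hX inferInstance
  obtain ⟨x, hx⟩ := exists_ne (0 : X)
  refine (rig_gen x hx 1 one_pos).mono ?_
  rintro f hf ⟨Y, _, _, e, he, hd⟩
  obtain ⟨_, _, h3⟩ := equiv_facts hX e
  exact notGur e (hf (pb e) he).2 (only Y h3 (hL.of_equiv e) hd)

theorem approx {s : Set (EN X)} (hs : s ∈ residual (EN X)) (ε : ℝ) (hε : 0 < ε) :
    ∃ f ∈ s, ∀ P : Seminorm ℝ X, Rep P f.1 → ∀ u, P u ≤ ‖u‖ ∧ ‖u‖ ≤ (1 + ε) * P u := by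
  have := baire (X := X)
  obtain ⟨g, hg⟩ : ∃ g : ℝ, g = min ε 1 := ⟨_, rfl⟩
  have hg0 : 0 < g := by rw [hg]; positivity
  have hg1 : g ≤ ε := by rw [hg]; exact min_le_left _ _
  have hg2 : g ≤ 1 := by rw [hg]; exact min_le_right _ _
  let l : NNReal := ⟨1 - g / 3, by linarith⟩
  have hl : ∀ u : X, (l • normSeminorm ℝ X) u = (1 - g / 3) * ‖u‖ := fun u => rfl
  have hb1 : ∀ u : X, (l • normSeminorm ℝ X) u ≤ 2 * ‖u‖ := fun u => by
    rw [hl]; nlinarith [norm_nonneg u]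
  have hb2 : ∀ u : X, ‖u‖ ≤ 2 * (l • normSeminorm ℝ X) u := fun u => by
    rw [hl]; nlinarith [norm_nonneg u]
  obtain ⟨f0, hf0⟩ := exists_ball _ 2 (by norm_num) hb1
  obtain ⟨f, hf1, hf2⟩ := Metric.dense_iff.1 (dense_of_mem_residual hs)
    ⟨f0, mem_EN _ _ hb1 hb2 f0 hf0⟩ (g / 12) (by positivity)
  refine ⟨f, hf2, fun P hP u => ?_⟩
  have hd : dist f.1 f0 < g / 12 := hf1
  have h3 := hP.close hf0 u
  rw [hl] at h3
  have h4 := abs_le.1 (h3.trans (mul_le_mul_of_nonneg_right hd.le (norm_nonneg u)))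
  have hu := norm_nonneg u
  constructor
  · nlinarith [mul_nonneg hg0.le hu]
  · have h5 : (1 - 5 * g / 12) * ‖u‖ ≤ P u := by linarith
    have h6 := mul_le_mul_of_nonneg_left h5 (show 0 ≤ 1 + g by linarith)
    have h7 : 1 ≤ (1 + g) * (1 - 5 * g / 12) := by nlinarith
    have h8 := mul_le_mul_of_nonneg_right h7 hu
    have h9 := mul_le_mul_of_nonneg_right hg1 (apply_nonneg P u)
    nlinarith

end

end Pool.Agent.Lib.MP_ab3705_an.Gen
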