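import Pool.Agent.Lib.MP_ab3705_an.GD.Fin
import Pool.Agent.Lib.MP_ab3705_an.Gen.Defs

set_option autoImplicit false

namespace Pool.Agent.Lib.MP_ab3705_an.Gen

open Pool.Agent.Lib.MP_ab3705_an.GD

section
variable {X : Type} [NormedAddCommGroup X] [NormedSpace ℝ X]

/-- Every linear `P`-isometry moves `x` close to `x` or to `-x`. -/
def RigAt (P : X → ℝ) (x : X) (ε : ℝ) : Prop :=
  ∀ U : X ≃ₗ[ℝ] X, (∀ u, P (U u) = P u) → P (U x - x) ≤ ε ∨ P (U x + x) ≤ ε

/-- A point with a corner in all directions at scale one. -/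
def Cor (P : X → ℝ) : Prop :=
  ∃ (w : X) (η : ℝ), 0 < η ∧ 0 < P w ∧ ∀ z, P (w + z) ≤ (1 + η) * P w →
    P (w - z) ≤ (1 + η) * P w → ∃ t : ℝ, P (z - t • w) < P w / 2

theorem sgn (P : Seminorm ℝ X) (u v : X) (h : P u = P v) (t ε : ℝ) (ht : P (u - t • v) ≤ ε) :
    P (u - v) ≤ 2 * ε ∨ P (u + v) ≤ 2 * ε := by
  have h1 : P u ≤ P (u - t • v) + P (t • v) := sn_sub P u _
  have h2 : P (t • v) ≤ P (t • v - u) + P u := sn_sub P _ u
  rw [map_sub_rev P (t • v) u] at h2
  rw [map_smul_eq_mul, Real.norm_eq_abs] at h1 h2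
  have hv : 0 ≤ P v := apply_nonneg P v
  rcases le_total 0 t with h0 | h0
  · left
    rw [abs_of_nonneg h0] at h1 h2
    have e : u - v = (u - t • v) + (t - 1) • v := by module
    have h3 := map_add_le_add P (u - t • v) ((t - 1) • v)
    rw [← e, map_smul_eq_mul, Real.norm_eq_abs] at h3
    have h4 : |t - 1| * P v ≤ ε := by
      rcases abs_cases (t - 1) with h5 | h5 <;> rw [h5.1] <;> linarith
    linarith
  · right
    rw [abs_of_nonpos h0] at h1 h2
    have e : u + v = (u - t • v) + (t + 1) • v := by module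
    have h3 := map_add_le_add P (u - t • v) ((t + 1) • v)
    rw [← e, map_smul_eq_mul, Real.norm_eq_abs] at h3
    have h4 : |t + 1| * P v ≤ ε := by
      rcases abs_cases (t + 1) with h5 | h5 <;> rw [h5.1] <;> linarith
    linarith

theorem rig_core (M : Seminorm ℝ X) (w : X) (L h : ℝ) (hh : 0 < h) (hh1 : h ≤ 1)
    (hw : M w = 1 + h)
    (hs : ∀ (s : X) (d : ℝ), 1 ≤ M s →
      M (s + d • w) + M (s - d • w) ≤ 2 * M s + 2 * (L * d) ^ 2) (ε : ℝ) (hε : 0 < ε) :
    ∃ (N : Seminorm ℝ X) (g : ℝ), 0 < g ∧ (∀ u, N u ≤ M u) ∧ (∀ u, M u ≤ (1 + h) * N u) ∧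
      ∀ P : Seminorm ℝ X, (∀ u, P u ≤ N u) → (∀ u, N u ≤ (1 + g) * P u) →
        RigAt P w (2 * ε) ∧ Cor P := by
  obtain ⟨N, hp1, hp2, hp3, hp4, hp5⟩ :=
    pimple M (fun _ : Unit => w) (fun _ => 1) (fun _ => le_rfl) h hh (fun _ => by rw [hw]; simp)
  have hNw : N w ≤ 1 := hp3 ()
  have hNw1 : 1 ≤ N w := by have := hp2 w; rw [hw] at this; nlinarith
  -- corner
  have hcor : ∀ (z : X) (θ : ℝ), N (w + z) + N (w - z) < 2 + θ →
      ∃ t : ℝ, h * M (z - t • w) < (1 + h) * θ := by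
    intro z θ hz
    have h1 := map_add_le_add M (w + z) (w - z)
    have e1 : w + z + (w - z) = (2 : ℝ) • w := by module
    rw [e1, map_smul_eq_mul, Real.norm_eq_abs, abs_two, hw] at h1
    have h2 := hp2 (w - z)
    obtain ⟨t, -, ht⟩ := hp5 (w + z) ((1 + h) * θ) (by nlinarith)
    refine ⟨t () - 1, ?_⟩
    have e2 : z - (t () - 1) • w = w + z - ∑ j, t j • w := by
      rw [Fintype.sum_unique]; module
    rw [e2]; exact ht
  -- near-optimal decomposition
  have hdec : ∀ (u : X) (η : ℝ), 0 < η → ∃ t : ℝ, M (u - t • w) + |t| < N u + η := by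
    intro u η hη
    by_contra hc
    push Not at hc
    have := hp4 u (N u + η) fun t => by
      have := hc (t ())
      simpa [Fintype.sum_unique] using this
    linarith
  have hup : ∀ (u : X) (t : ℝ), N (u + t • w) ≤ M u + |t| := by
    intro u t
    have h1 := map_add_le_add N u (t • w)
    rw [map_smul_eq_mul, Real.norm_eq_abs] at h1
    have h2 := hp1 u
    nlinarith [abs_nonneg t]
  obtain ⟨A, hA⟩ : ∃ A : ℝ, A = L ^ 2 + 1 := ⟨_, rfl⟩
  have hA0 : 0 < A := by rw [hA]; positivity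
  obtain ⟨δ, hδ⟩ : ∃ δ : ℝ, δ = h * ε ^ 2 / (32 * A) := ⟨_, rfl⟩
  have hδ0 : 0 < δ := by rw [hδ]; positivity
  obtain ⟨q, hq⟩ : ∃ q : ℝ, q = A * δ ^ 2 / ε := ⟨_, rfl⟩
  have hq0 : 0 < q := by rw [hq]; positivity
  have hqδ : 32 * q = h * (δ * ε) := by
    rw [hq]
    have : δ * (32 * A) = h * ε ^ 2 := by rw [hδ]; field_simp
    field_simp
    nlinarith
  refine ⟨N, min q (h / 100), by positivity, hp1, hp2, fun P hP1 hP2 => ?_⟩
  obtain ⟨g, hg⟩ : ∃ g : ℝ, g = min q (h / 100) := ⟨_, rfl⟩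
  rw [← hg] at hP2
  have hg0 : 0 < g := by rw [hg]; positivity
  have hg1 : g ≤ q := by rw [hg]; exact min_le_left _ _
  have hg2 : g ≤ h / 100 := by rw [hg]; exact min_le_right _ _
  have hPw : P w ≤ 1 := (hP1 w).trans hNw
  have hPM : ∀ u, P u ≤ M u := fun u => (hP1 u).trans (hp1 u)
  constructor
  · intro U hU
    obtain ⟨t, ht⟩ := hdec (U w) q hq0
    rcases le_or_gt (M (U w - t • w)) ε with hr | hr
    · exact sgn P (U w) w (hU w) t ε ((hPM _).trans hr)
    obtain ⟨r, hrd⟩ : ∃ r : X, r = U w - t • w := ⟨_, rfl⟩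
    rw [← hrd] at ht hr
    have h1 := hs (ε⁻¹ • r) (ε⁻¹ * δ) (by
      rw [map_smul_eq_mul, Real.norm_eq_abs, abs_of_pos (inv_pos.2 hε), ← div_eq_inv_mul,
        le_div_iff₀ hε]
      linarith)
    rw [mul_smul, ← smul_add, ← smul_sub, map_smul_eq_mul, map_smul_eq_mul, map_smul_eq_mul,
      Real.norm_eq_abs, abs_of_pos (inv_pos.2 hε)] at h1
    have h2 : M (r + δ • w) + M (r - δ • w) ≤ 2 * M r + 2 * q := by
      have h3 := mul_le_mul_of_nonneg_left h1 hε.le
      have e1 : ε * (ε⁻¹ * M (r + δ • w) + ε⁻¹ * M (r - δ • w))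
          = M (r + δ • w) + M (r - δ • w) := by field_simp
      have e2 : ε * (2 * (ε⁻¹ * M r) + 2 * (L * (ε⁻¹ * δ)) ^ 2)
          = 2 * M r + 2 * (L ^ 2 * δ ^ 2 / ε) := by field_simp
      have h4 : L ^ 2 * δ ^ 2 / ε ≤ q := by
        rw [hq]
        exact div_le_div_of_nonneg_right
          (mul_le_mul_of_nonneg_right (by rw [hA]; linarith) (by positivity)) hε.le
      rw [e1, e2] at h3
      linarith
    have h3 := hup (r + δ • w) t
    have h4 := hup (r - δ • w) t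
    have e1 : r + δ • w + t • w = U (w + U.symm (δ • w)) := by
      rw [map_add, LinearEquiv.apply_symm_apply, hrd]; module
    have e2 : r - δ • w + t • w = U (w - U.symm (δ • w)) := by
      rw [map_sub, LinearEquiv.apply_symm_apply, hrd]; module
    rw [e1] at h3
    rw [e2] at h4
    have h5 := hP1 (U (w + U.symm (δ • w)))
    have h6 := hP1 (U (w - U.symm (δ • w)))
    rw [hU] at h5 h6
    have h7 := hP2 (U w)
    rw [hU] at h7
    have h8 : N (U w) ≤ 1 + g := by nlinarith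
    have h9 : P (w + U.symm (δ • w)) + P (w - U.symm (δ • w)) ≤ 2 + 6 * q := by linarith
    have h10 := hP2 (w + U.symm (δ • w))
    have h11 := hP2 (w - U.symm (δ • w))
    have h12 := mul_le_mul_of_nonneg_left h9 (show 0 ≤ 1 + g by linarith)
    have h13 : g * q ≤ q := by nlinarith
    obtain ⟨s, hs2⟩ := hcor (U.symm (δ • w)) (16 * q) (by nlinarith)
    have h14 : M (U.symm (δ • w) - s • w) ≤ δ * ε := by
      have : h * M (U.symm (δ • w) - s • w) ≤ h * (δ * ε) := by nlinarith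
      exact le_of_mul_le_mul_left this hh
    have h15 : P (w - (δ⁻¹ * s) • U w) ≤ ε := by
      have e3 : w - (δ⁻¹ * s) • U w = δ⁻¹ • U (U.symm (δ • w) - s • w) := by
        rw [map_sub, LinearEquiv.apply_symm_apply, map_smul, smul_sub, smul_smul, smul_smul,
          inv_mul_cancel₀ hδ0.ne', one_smul]
      rw [e3, map_smul_eq_mul, hU, Real.norm_eq_abs, abs_of_pos (inv_pos.2 hδ0),
        inv_mul_le_iff₀ hδ0]
      exact (hPM _).trans h14
    rcases sgn P w (U w) (hU w).symm _ ε h15 with h16 | h16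
    · left; rwa [map_sub_rev]
    · right; rwa [add_comm]
  · have hPw1 : 1 ≤ (1 + g) * P w := hNw1.trans (hP2 w)
    have hPw2 : 1 / 2 ≤ P w := by nlinarith [apply_nonneg P w]
    refine ⟨w, h / 100, by positivity, by linarith, fun z hz1 hz2 => ?_⟩
    have h1 := hP2 (w + z)
    have h2 := hP2 (w - z)
    have h3 : P (w + z) + P (w - z) ≤ 2 * (1 + h / 100) := by nlinarith
    have h4 := mul_le_mul_of_nonneg_left h3 (show 0 ≤ 1 + g by linarith)
    obtain ⟨t, ht⟩ := hcor z (h / 10) (by nlinarith)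
    refine ⟨t, ?_⟩
    have h5 : h * M (z - t • w) < h * (1 / 4) := by nlinarith
    have h6 := lt_of_mul_lt_mul_left h5 hh.le
    have h7 := hPM (z - t • w)
    linarith

/-- The open dense step for rigidity and corners. -/
theorem rig (N : Seminorm ℝ X) (x : X) (hx : 0 < N x) (h : ℝ) (hh : 0 < h) (ε : ℝ) (hε : 0 < ε) :
    ∃ (N' : Seminorm ℝ X) (g : ℝ), 0 < g ∧ (∀ u, N' u ≤ N u) ∧ (∀ u, N u ≤ (1 + h) * N' u) ∧
      ∀ P : Seminorm ℝ X, (∀ u, P u ≤ N' u) → (∀ u, N' u ≤ (1 + g) * P u) →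
        RigAt P x ε ∧ Cor P := by
  obtain ⟨k, hk⟩ : ∃ k : ℝ, k = min 1 (h / 3) := ⟨_, rfl⟩
  have hk0 : 0 < k := by rw [hk]; positivity
  have hk1 : k ≤ 1 := by rw [hk]; exact min_le_left _ _
  have hk2 : k ≤ h / 3 := by rw [hk]; exact min_le_right _ _
  obtain ⟨M, hM1, hM2, hM3⟩ := smooth N x (N x / k) k hk0.le (by rw [mul_div_cancel₀ _ hk0.ne'])
  have hMx : 0 < M x := by
    have := hM2 x
    by_contra hc
    have h0 : M x = 0 := le_antisymm (not_lt.1 hc) (apply_nonneg _ _)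
    rw [h0] at this
    linarith
  obtain ⟨l, hl⟩ : ∃ l : ℝ, l = (1 + k) / M x := ⟨_, rfl⟩
  have hl0 : 0 < l := by rw [hl]; positivity
  obtain ⟨N', g, hg, h1, h2, h3⟩ := rig_core M (l • x) (N x / k * l) k hk0 hk1
    (by rw [map_smul_eq_mul, Real.norm_eq_abs, abs_of_pos hl0, hl]; field_simp)
    (fun s d hs => by
      have := hM3 s (d * l) hs
      rw [mul_smul] at this
      have e : N x / k * l * d = N x / k * (d * l) := by ring
      rw [e]; exact this) (l * ε / 2) (by positivity)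
  refine ⟨N', g, hg, fun u => (h1 u).trans (hM1 u), fun u => ?_, fun P hP1 hP2 => ?_⟩
  · have h4 := mul_le_mul_of_nonneg_left (h2 u) (show 0 ≤ 1 + k by linarith)
    have h5 := hM2 u
    have h6 : (1 + k) * (1 + k) ≤ 1 + h := by nlinarith
    have h7 := mul_le_mul_of_nonneg_right h6 (apply_nonneg N' u)
    nlinarith
  · obtain ⟨h4, h5⟩ := h3 P hP1 hP2
    refine ⟨fun U hU => ?_, h5⟩
    have e : 2 * (l * ε / 2) = l * ε := by ring
    rcases h4 U hU with h6 | h6
    · left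
      rw [map_smul, ← smul_sub, map_smul_eq_mul, Real.norm_eq_abs, abs_of_pos hl0, e] at h6
      exact le_of_mul_le_mul_left h6 hl0
    · right
      rw [map_smul, ← smul_add, map_smul_eq_mul, Real.norm_eq_abs, abs_of_pos hl0, e] at h6
      exact le_of_mul_le_mul_left h6 hl0

end

end Pool.Agent.Lib.MP_ab3705_an.Gen
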